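import Mathlib

set_option autoImplicit false

/-!
# Ultraproducts of real inner product spaces with isometric group actions
(module F of helper10's nonamenability project)
-/

namespace Pool.Agent.helper22.NA

open Filter Topology UniformSpace

/-- Bounded sequences. -/
def Bdd {E : ℕ → Type} [∀ n, NormedAddCommGroup (E n)] (x : ∀ n, E n) : Prop :=
  ∃ C : ℝ, ∀ n, ‖x n‖ ≤ C

section

variable (E : ℕ → Type) [∀ n, NormedAddCommGroup (E n)] [∀ n, InnerProductSpace ℝ (E n)]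

/-- The space of bounded sequences. -/
def BS : Submodule ℝ (∀ n, E n) where
  carrier := {x | Bdd x}
  add_mem' := by
    rintro x y ⟨C, hC⟩ ⟨D, hD⟩
    exact ⟨C + D, fun n => (norm_add_le _ _).trans (add_le_add (hC n) (hD n))⟩
  zero_mem' := ⟨0, fun n => by simp⟩
  smul_mem' := by
    rintro c x ⟨C, hC⟩
    refine ⟨‖c‖ * C, fun n => ?_⟩
    rw [Pi.smul_apply, norm_smul]
    exact mul_le_mul_of_nonneg_left (hC n) (norm_nonneg _)

/-- Bounded sequences, with the pre-inner product given by the ultrafilter. -/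
def UB (_ : Ultrafilter ℕ) : Type := BS E

variable (𝒰 : Ultrafilter ℕ)

instance : AddCommGroup (UB E 𝒰) := inferInstanceAs (AddCommGroup (BS E))
instance : Module ℝ (UB E 𝒰) := inferInstanceAs (Module ℝ (BS E))

variable {E} {𝒰}

/-- The underlying sequence. -/
def UB.seq (x : UB E 𝒰) : ∀ n, E n := x.1

theorem UB.bdd (x : UB E 𝒰) : Bdd x.seq := x.2

@[simp] theorem UB.seq_add (x y : UB E 𝒰) (n : ℕ) : (x + y).seq n = x.seq n + y.seq n := rfl
@[simp] theorem UB.seq_smul (c : ℝ) (x : UB E 𝒰) (n : ℕ) : (c • x).seq n = c • x.seq n := rfl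

theorem UB.ext {x y : UB E 𝒰} (h : ∀ n, x.seq n = y.seq n) : x = y := Subtype.ext (funext h)

theorem exists_lim (𝒰 : Ultrafilter ℕ) (f : ℕ → ℝ) (C : ℝ) (h : ∀ n, |f n| ≤ C) :
    ∃ l, Tendsto f 𝒰 (𝓝 l) := by
  have hK : IsCompact (Set.Icc (-C) C) := isCompact_Icc
  obtain ⟨l, _, hl⟩ := hK.ultrafilter_le_nhds (𝒰.map f) (by
    rw [le_principal_iff]
    show f ⁻¹' (Set.Icc (-C) C) ∈ 𝒰
    have : f ⁻¹' (Set.Icc (-C) C) = Set.univ := by
      ext n
      simp only [Set.mem_preimage, Set.mem_Icc, Set.mem_univ, iff_true]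
      exact abs_le.1 (h n)
    rw [this]; exact Filter.univ_mem)
  exact ⟨l, hl⟩

theorem exists_ip_lim (𝒰 : Ultrafilter ℕ) {x y : ∀ n, E n} (hx : Bdd x) (hy : Bdd y) :
    ∃ l, Tendsto (fun n => inner ℝ (x n) (y n)) 𝒰 (𝓝 l) := by
  obtain ⟨C, hC⟩ := hx
  obtain ⟨D, hD⟩ := hy
  refine exists_lim 𝒰 _ (C * D) fun n => ?_
  refine (abs_real_inner_le_norm _ _).trans ?_
  exact mul_le_mul (hC n) (hD n) (norm_nonneg _) ((norm_nonneg _).trans (hC n))

/-- The pre-inner product. -/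
noncomputable def ip (x y : UB E 𝒰) : ℝ :=
  limUnder (𝒰 : Filter ℕ) (fun n => inner ℝ (x.seq n) (y.seq n))

theorem ip_spec (x y : UB E 𝒰) :
    Tendsto (fun n => inner ℝ (x.seq n) (y.seq n)) 𝒰 (𝓝 (ip x y)) :=
  tendsto_nhds_limUnder (exists_ip_lim 𝒰 x.bdd y.bdd)

variable (E) (𝒰)

/-- The core structure. -/
@[instance_reducible] noncomputable def core : PreInnerProductSpace.Core ℝ (UB E 𝒰) where
  inner := ip
  conj_inner_symm := by
    intro x y
    have h1 := ip_spec x y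
    have h2 := ip_spec y x
    simp only [conj_trivial]
    refine tendsto_nhds_unique h2 ?_
    simpa only [real_inner_comm] using h1
  re_inner_nonneg := by
    intro x
    have h1 := ip_spec x x
    simp only [RCLike.re_to_real]
    exact ge_of_tendsto' h1 fun n => real_inner_self_nonneg
  add_left := by
    intro x y z
    refine tendsto_nhds_unique (ip_spec (x + y) z) ?_
    have := (ip_spec x z).add (ip_spec y z)
    simpa only [UB.seq_add, inner_add_left] using this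
  smul_left := by
    intro x y r
    refine tendsto_nhds_unique (ip_spec (r • x) y) ?_
    have := (ip_spec x y).const_mul r
    simpa only [UB.seq_smul, real_inner_smul_left, conj_trivial] using this

noncomputable instance : SeminormedAddCommGroup (UB E 𝒰) :=
  @InnerProductSpace.Core.toSeminormedAddCommGroup ℝ _ _ _ _ (core E 𝒰)

noncomputable instance : InnerProductSpace ℝ (UB E 𝒰) := InnerProductSpace.ofCore (core E 𝒰)

variable {E} {𝒰}

theorem inner_eq (x y : UB E 𝒰) : inner ℝ x y = ip x y := rfl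

variable {Γ : Type} [Group Γ] (ρ : ∀ n, Γ →* (E n ≃ₗᵢ[ℝ] E n))

theorem Bdd.map {x : ∀ n, E n} (hx : Bdd x) (g : Γ) : Bdd (fun n => ρ n g (x n)) := by
  obtain ⟨C, hC⟩ := hx
  exact ⟨C, fun n => by rw [LinearIsometryEquiv.norm_map]; exact hC n⟩

/-- The action on bounded sequences. -/
def actUB (𝒰 : Ultrafilter ℕ) (g : Γ) (x : UB E 𝒰) : UB E 𝒰 :=
  ⟨fun n => ρ n g (x.seq n), Bdd.map ρ x.bdd g⟩

theorem actUB_seq (g : Γ) (x : UB E 𝒰) (n : ℕ) : (actUB ρ 𝒰 g x).seq n = ρ n g (x.seq n) := rfl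

/-- The action on bounded sequences, as a linear isometry. -/
noncomputable def actL (𝒰 : Ultrafilter ℕ) (g : Γ) : UB E 𝒰 →ₗᵢ[ℝ] UB E 𝒰 where
  toFun := actUB ρ 𝒰 g
  map_add' x y := UB.ext fun n => by simp [actUB_seq]
  map_smul' c x := UB.ext fun n => by simp [actUB_seq]
  norm_map' x := by
    have h : ip (actUB ρ 𝒰 g x) (actUB ρ 𝒰 g x) = ip x x := by
      refine tendsto_nhds_unique (ip_spec _ _) ?_
      simpa only [actUB_seq, LinearIsometryEquiv.inner_map_map] using ip_spec x x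
    have h1 : ‖actUB ρ 𝒰 g x‖ ^ 2 = ‖x‖ ^ 2 := by
      rw [← real_inner_self_eq_norm_sq, ← real_inner_self_eq_norm_sq, inner_eq, inner_eq, h]
    exact (sq_eq_sq₀ (norm_nonneg _) (norm_nonneg _)).1 h1

theorem actL_apply (g : Γ) (x : UB E 𝒰) : actL ρ 𝒰 g x = actUB ρ 𝒰 g x := rfl

theorem actUB_mul (g h : Γ) (x : UB E 𝒰) :
    actUB ρ 𝒰 (g * h) x = actUB ρ 𝒰 g (actUB ρ 𝒰 h x) := UB.ext fun n => by
  simp [actUB_seq]

theorem actUB_one (x : UB E 𝒰) : actUB ρ 𝒰 1 x = x := UB.ext fun n => by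
  simp [actUB_seq]

/-- The action on the completion. -/
noncomputable def actC (𝒰 : Ultrafilter ℕ) (g : Γ) :
    Completion (UB E 𝒰) →L[ℝ] Completion (UB E 𝒰) :=
  (actL ρ 𝒰 g).toContinuousLinearMap.completion

theorem actC_coe (g : Γ) (x : UB E 𝒰) :
    actC ρ 𝒰 g (x : Completion (UB E 𝒰)) = (actUB ρ 𝒰 g x : Completion (UB E 𝒰)) := by
  rw [actC, ContinuousLinearMap.completion_apply_coe]
  rfl

theorem actC_mul (g h : Γ) (x : Completion (UB E 𝒰)) :
    actC ρ 𝒰 (g * h) x = actC ρ 𝒰 g (actC ρ 𝒰 h x) := by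
  induction x using Completion.induction_on with
  | hp =>
    refine isClosed_eq (actC ρ 𝒰 (g * h)).continuous ?_
    exact (actC ρ 𝒰 g).continuous.comp (actC ρ 𝒰 h).continuous
  | ih x => rw [actC_coe, actC_coe, actC_coe, actUB_mul]

theorem actC_one (x : Completion (UB E 𝒰)) : actC ρ 𝒰 (1 : Γ) x = x := by
  induction x using Completion.induction_on with
  | hp => exact isClosed_eq (actC ρ 𝒰 1).continuous continuous_id
  | ih x => rw [actC_coe, actUB_one]

theorem actC_norm (g : Γ) (x : Completion (UB E 𝒰)) : ‖actC ρ 𝒰 g x‖ = ‖x‖ := by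
  induction x using Completion.induction_on with
  | hp => exact isClosed_eq (actC ρ 𝒰 g).continuous.norm continuous_norm
  | ih x =>
    rw [actC_coe, Completion.norm_coe, Completion.norm_coe]
    exact (actL ρ 𝒰 g).norm_map x

/-- The action on the completion by linear isometries. -/
noncomputable def actE (𝒰 : Ultrafilter ℕ) :
    Γ →* (Completion (UB E 𝒰) ≃ₗᵢ[ℝ] Completion (UB E 𝒰)) where
  toFun g :=
    { toLinearEquiv :=
        { toFun := actC ρ 𝒰 g
          invFun := actC ρ 𝒰 g⁻¹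
          map_add' := map_add _
          map_smul' := map_smul _
          left_inv := fun x => by rw [← actC_mul, inv_mul_cancel, actC_one]
          right_inv := fun x => by rw [← actC_mul, mul_inv_cancel, actC_one] }
      norm_map' := actC_norm ρ g }
  map_one' := by
    ext x
    exact actC_one ρ x
  map_mul' g h := by
    ext x
    exact actC_mul ρ g h x

end

theorem exists_ultra {Γ : Type} [Group Γ] (E : ℕ → Type) [∀ n, NormedAddCommGroup (E n)]
    [∀ n, InnerProductSpace ℝ (E n)] (ρ : ∀ n, Γ →* (E n ≃ₗᵢ[ℝ] E n)) (𝒰 : Ultrafilter ℕ) :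
    ∃ (H : Type) (_ : NormedAddCommGroup H) (_ : InnerProductSpace ℝ H) (_ : CompleteSpace H)
      (σ : Γ →* (H ≃ₗᵢ[ℝ] H)) (π : (∀ n, E n) → H),
      (∀ x y, Bdd x → Bdd y → π (x + y) = π x + π y) ∧
      (∀ (c : ℝ) x, Bdd x → π (c • x) = c • π x) ∧
      (∀ x y, Bdd x → Bdd y →
        Tendsto (fun n => inner ℝ (x n) (y n)) 𝒰 (𝓝 (inner ℝ (π x) (π y)))) ∧
      (∀ g x, Bdd x → π (fun n => ρ n g (x n)) = σ g (π x)) ∧
      (∀ v : H, ∀ δ : ℝ, 0 < δ → ∃ x, Bdd x ∧ ‖π x - v‖ < δ) := by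
  classical
  let mk : ∀ x : (∀ n, E n), Bdd x → UB E 𝒰 := fun x hx => ⟨x, hx⟩
  have hbs : ∀ x : BS E, Bdd x.1 := fun x => x.2
  let π : (∀ n, E n) → Completion (UB E 𝒰) := fun x =>
    if h : Bdd x then ((mk x h : UB E 𝒰) : Completion (UB E 𝒰)) else 0
  have hπ : ∀ x (h : Bdd x), π x = ((mk x h : UB E 𝒰) : Completion (UB E 𝒰)) := fun x h =>
    dif_pos h
  refine ⟨Completion (UB E 𝒰), inferInstance, inferInstance, inferInstance, actE ρ 𝒰, π,
    ?_, ?_, ?_, ?_, ?_⟩
  · intro x y hx hy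
    have hxy : Bdd (x + y) := (BS E).add_mem hx hy
    rw [hπ x hx, hπ y hy, hπ _ hxy, ← Completion.coe_add]
    rfl
  · intro c x hx
    have hcx : Bdd (c • x) := (BS E).smul_mem c hx
    rw [hπ x hx, hπ _ hcx, ← Completion.coe_smul]
    rfl
  · intro x y hx hy
    rw [hπ x hx, hπ y hy, Completion.inner_coe]
    exact ip_spec (mk x hx) (mk y hy)
  · intro g x hx
    rw [hπ x hx, hπ _ (Bdd.map ρ hx g)]
    exact (actC_coe ρ g (mk x hx)).symm
  · intro v δ hδ
    obtain ⟨x, hx⟩ := Completion.denseRange_coe.exists_dist_lt v hδ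
    refine ⟨x.seq, x.bdd, ?_⟩
    rw [hπ _ x.bdd, ← dist_eq_norm, dist_comm]
    exact hx

end Pool.Agent.helper22.NA
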